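import Pool.Agent.H272Z.Warp.Sanity

set_option autoImplicit false

namespace Pool.Agent.Results.MP_89478c_gt.AWarpBounded

open Pool.Agent.Helper907.AA Pool.Agent.H272Z.Warp

/-- Every link diagram `D` is related by planar isotopies and Reidemeister moves to a diagram `E`
such that on every component of `E`, for both directions and every starting point `s`, the running
weights `d` satisfy `(d_a - d_b - 1) / 2 ≤ 1 / 2` for all times `a`, `b`.  Hence every link has
warping span at most `1 / 2`. -/
theorem result (D : Word) (hD : Closed D) :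
    ∃ E : Word, Closed E ∧ Isotopic D E ∧
      ∀ s : State, OnDiagram E s → ∀ a b : ℕ,
        ((runWeight E s a : ℚ) - (runWeight E s b : ℚ) - 1) / 2 ≤ 1 / 2 := by
  obtain ⟨E, h1, h2, h3⟩ := main D hD
  refine ⟨E, h1, h2, fun s _ a b => ?_⟩
  have h : ((runWeight E s a - runWeight E s b : ℤ) : ℚ) ≤ 2 := by exact_mod_cast h3 s a b
  push_cast at h
  linarith

end Pool.Agent.Results.MP_89478c_gt.AWarpBounded
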